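import Pool.Agent.Lib.MP_a6e91d_co.NL.Seven
import Pool.Agent.Lib.MP_a6e91d_co.NL.Bridge

set_option autoImplicit false

namespace Pool.Agent.Lib.MP_a6e91d_co.Old.NonLattice

/-- For `m ≥ 3` and `s ≥ 7` no set `C` of centres, lattice or not, has every point of `ℤ^m`
within `ℓ¹`-distance `s` of exactly one centre. -/
theorem result (m s : ℕ) (hm : 3 ≤ m) (hs : 7 ≤ s) (C : Set (Fin m → ℤ)) :
    ¬ ∀ x : Fin m → ℤ, ∃! c : Fin m → ℤ, c ∈ C ∧ ∑ i, |x i - c i| ≤ (s : ℤ) := by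
  intro h
  obtain ⟨T⟩ := Pool.Agent.Lib.MP_a6e91d_co.exists_code C h
  exact T.seven_le hs hm

end Pool.Agent.Lib.MP_a6e91d_co.Old.NonLattice
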